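import Pool.Agent.Y124.TM.Ds

/-!
# The modular Schanuel conjecture with derivatives: EVERY tuple of integral invariants in a short window

Let `j` be the modular invariant and let `z_1, …, z_k` be points of the upper half-plane for which the numbers
`n_l = j(z_l)` are integers. If the `z_l` are not special and are pairwise not equivalent under `GL_2(ℚ)`, the conjecture
predicts that the `3 k` numbers `z_l`, `j'(z_l)`, `j''(z_l)` are algebraically independent.

For all `k`, `δ`, `D` there is an exponent `c > 0` such that for all large `N` and for EVERY `k`-tuple of DISTINCT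
integers `n_1, …, n_k` in `[N, N + N^c]` (or in `[-N - N^c, -N]`) and ALL `z_l` with `j(z_l) = n_l` the transcendence
degree of the `3 k + 1` numbers `2 π i`, `z_l`, `j'(z_l)`, `j''(z_l)` is at least `3 k - 1`, and hence that of the `3 k` numbers
without `2 π i` at least `3 k - 2`, as far as relations of degree at most `δ` over number fields of degree at most `D` show: some
`3 k - 1` (`3 k - 2`) of these numbers satisfy no such relation, of any height. No tuples are excluded.

Proof. The numbers are rational functions of `log |n|`, of `2 π i` and of the values at `x = ± 1/n` of three algebraically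
independent G-functions `F`, `θF`, `G` (hypergeometric functions; `F^2 = E_6/E_4`). In a window the values of the functions `F`,
`θF` and `G - F log (1 - g_l x)` at `1/(t - g_l)` are the values at `x = 1/t` of `3 k` algebraically independent G-functions (for
distinct shifts `g_l` this is the team's theorem on distinct integers); their monomials of bounded degree are linearly independent
over `ℚ` (Siegel's method). If the transcendence degree of the `3 k + 1` numbers in degree `δ` were smaller than `3 k - 1` the space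
of the values of the polynomials of large degree in these numbers and in the one number `log t` would grow too slowly.
-/

set_option autoImplicit false

open Module

namespace Pool.Agent.Results.MP_5e64e7_nt.AllIntegralTuples

/-- the normalised Eisenstein series of weight `4` -/
noncomputable def E4 (τ : ℂ) : ℂ :=
  1 + 240 * ∑' m : ℕ, ((ArithmeticFunction.sigma 3 (m + 1) : ℕ) : ℂ) *
    Complex.exp (2 * (Real.pi : ℂ) * Complex.I * ((m : ℂ) + 1) * τ)

/-- the normalised Eisenstein series of weight `6` -/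
noncomputable def E6 (τ : ℂ) : ℂ :=
  1 - 504 * ∑' m : ℕ, ((ArithmeticFunction.sigma 5 (m + 1) : ℕ) : ℂ) *
    Complex.exp (2 * (Real.pi : ℂ) * Complex.I * ((m : ℂ) + 1) * τ)

/-- the modular invariant `j = q⁻¹ + 744 + 196884 q + ⋯` -/
noncomputable def J (τ : ℂ) : ℂ := 1728 * E4 τ ^ 3 / (E4 τ ^ 3 - E6 τ ^ 2)

/-- the numbers `z`, `j'(z)`, `j''(z)` -/
noncomputable def numbers (z : ℂ) : Fin 3 → ℂ := ![z, deriv J z, deriv (deriv J) z]

/-- the number `2 π i` added to the numbers `x_i` -/
noncomputable def withPeriod {ι : Type} (x : ι → ℂ) (o : Option ι) : ℂ := o.elim (2 * (Real.pi : ℂ) * Complex.I) x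

/-- The integers `n_1, …, n_k` lie in `[N, N + H]`, or all of them in `[-N - H, -N]`. -/
def InWindow (N : ℕ) (H : ℝ) {k : ℕ} (n : Fin k → ℤ) : Prop :=
  (∀ l, (N : ℝ) ≤ n l ∧ (n l : ℝ) ≤ N + H) ∨ ∀ l, (N : ℝ) ≤ -(n l : ℝ) ∧ -(n l : ℝ) ≤ N + H

/-- Some `r` of the numbers `x_i` (with different indices) satisfy no nonzero polynomial relation of degree at most `δ` in each
unknown with coefficients in `K`. -/
def TrdegGe {ι : Type} (r δ : ℕ) (K : IntermediateField ℚ ℂ) (x : ι → ℂ) : Prop :=
  ∃ σ : Fin r → ι, Function.Injective σ ∧ ∀ P : MvPolynomial (Fin r) K, (∀ i, P.degreeOf i ≤ δ) →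
    MvPolynomial.aeval (fun i => x (σ i)) P = 0 → P = 0

lemma wp_none {ι : Type} (x : ι → ℂ) : withPeriod x none = 2 * (Real.pi : ℂ) * Complex.I := rfl

lemma wp_some {ι : Type} (x : ι → ℂ) (i : ι) : withPeriod x (some i) = x i := rfl

lemma tpi_eq : Pool.Agent.Y120.J.tpi = 2 * (Real.pi : ℂ) * Complex.I := rfl

open Pool.Agent.Y124.TM in
lemma np_none {k : ℕ} (z : Fin k → ℂ) : np z none = Pool.Agent.Y120.J.tpi := rfl

open Pool.Agent.Y124.TM in
lemma np_some {k : ℕ} (z : Fin k → ℂ) (v : Fin k × Fin 3) : np z (some v) = Pool.Agent.Y120.J.jt (z v.1) v.2 := rfl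

/-- The theorem: `c` and `N₀` depend only on `k`, `δ`, `D`. -/
theorem result : ∀ k δ D : ℕ, ∃ (c : ℝ) (N₀ : ℕ), 0 < c ∧ ∀ N : ℕ, N₀ ≤ N →
    ∀ n : Fin k → ℤ, Function.Injective n → InWindow N ((N : ℝ) ^ c) n →
      ∀ z : Fin k → ℂ, (∀ l, 0 < (z l).im ∧ J (z l) = n l) →
        ∀ (K : IntermediateField ℚ ℂ) [FiniteDimensional ℚ K], finrank ℚ K ≤ D →
          TrdegGe (3 * k - 1) δ K (withPeriod fun v : Fin k × Fin 3 => numbers (z v.1) v.2) ∧
          TrdegGe (3 * k - 2) δ K (fun v : Fin k × Fin 3 => numbers (z v.1) v.2) := by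
  classical
  have h4 : E4 = Pool.Agent.TH21.MS.E4 := funext Pool.Agent.Y120.J.E4_same
  have h6 : E6 = Pool.Agent.TH21.MS.E6 := funext Pool.Agent.Y120.J.E6_same
  have hJ : J = Pool.Agent.TH21.MS.jj := by
    funext τ
    unfold J Pool.Agent.TH21.MS.jj
    rw [h4, h6]
  intro k δ D
  obtain ⟨c, N₀, hc, hw⟩ := Pool.Agent.Y124.TM.dis_win k δ D
  refine ⟨c, N₀, hc, fun N hN n hninj hwin z hz K _ hK => ?_⟩
  -- the sign
  have key : ∃ s : Bool, ∀ l, n l = Pool.Agent.Y120.J.si s * ((n l).natAbs : ℤ) ∧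
      N ≤ (n l).natAbs ∧ (((n l).natAbs : ℕ) : ℝ) ≤ N + (N : ℝ) ^ c := by
    rcases hwin with h | h
    · refine ⟨true, fun l => ?_⟩
      have h0 : (0 : ℤ) ≤ n l := by
        have h1 : (0 : ℝ) ≤ n l := (Nat.cast_nonneg N).trans (h l).1
        exact_mod_cast h1
      have h2 : (((n l).natAbs : ℕ) : ℤ) = n l := Int.natAbs_of_nonneg h0
      have h3 : (((n l).natAbs : ℕ) : ℝ) = n l := by
        rw [Nat.cast_natAbs, Int.cast_abs, abs_of_nonneg (by exact_mod_cast h0)]
      refine ⟨?_, ?_, ?_⟩
      · have h4 : Pool.Agent.Y120.J.si true = 1 := rfl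
        rw [h4, one_mul, h2]
      · have h4 : (N : ℝ) ≤ (((n l).natAbs : ℕ) : ℝ) := by
          rw [h3]
          exact (h l).1
        exact_mod_cast h4
      · rw [h3]
        exact (h l).2
    · refine ⟨false, fun l => ?_⟩
      have h0 : (0 : ℤ) ≤ -n l := by
        have h1 : (0 : ℝ) ≤ -(n l : ℝ) := (Nat.cast_nonneg N).trans (h l).1
        exact_mod_cast h1
      have h2 : (((n l).natAbs : ℕ) : ℤ) = -n l := by
        rw [← Int.natAbs_neg]
        exact Int.natAbs_of_nonneg h0
      have h3 : (((n l).natAbs : ℕ) : ℝ) = -(n l : ℝ) := by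
        have h5 : n l ≤ 0 := by linarith
        rw [Nat.cast_natAbs, Int.cast_abs, abs_of_nonpos (by exact_mod_cast h5)]
      refine ⟨?_, ?_, ?_⟩
      · have h4 : Pool.Agent.Y120.J.si false = -1 := rfl
        rw [h4, h2]
        ring
      · have h4 : (N : ℝ) ≤ (((n l).natAbs : ℕ) : ℝ) := by
          rw [h3]
          exact (h l).1
        exact_mod_cast h4
      · rw [h3]
        exact (h l).2
  obtain ⟨s, hs⟩ := key
  have hzz : ∀ l, Pool.Agent.TH21.MS.jj ((⟨z l, (hz l).1⟩ : UpperHalfPlane) : ℂ) =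
      ((Pool.Agent.Y120.J.si s * ((n l).natAbs : ℤ) : ℤ) : ℂ) := by
    intro l
    have h1 := (hz l).2
    rw [hJ] at h1
    show Pool.Agent.TH21.MS.jj (z l) = _
    rw [h1]
    exact congrArg (Int.cast : ℤ → ℂ) (hs l).1
  have hjt : ∀ l j, Pool.Agent.Y120.J.jt (z l) j = numbers (z l) j := by
    intro l j
    unfold numbers Pool.Agent.Y120.J.jt
    rw [hJ]
  -- distinct integers
  have hdis := hw N hN s (fun l => (n l).natAbs) (fun l => (hs l).2)
    (fun l l' hll => hninj (by
      rw [(hs l).1, (hs l').1]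
      exact congrArg (fun a : ℕ => Pool.Agent.Y120.J.si s * (a : ℤ)) hll))
    (fun l => ⟨z l, (hz l).1⟩) hzz K hK
  have hA : ∃ σ : Fin (3 * k - 1) → Option (Fin k × Fin 3), Function.Injective σ ∧
      Pool.Agent.Y124.TD.LIb K δ (fun i => withPeriod (fun v : Fin k × Fin 3 => numbers (z v.1) v.2) (σ i)) := by
    rw [mul_comm k 3] at hdis
    obtain ⟨σ, h1, h2⟩ := hdis
    refine ⟨σ, h1, ?_⟩
    have h3 : (fun i => withPeriod (fun v : Fin k × Fin 3 => numbers (z v.1) v.2) (σ i)) =
        fun i => Pool.Agent.Y124.TM.np (fun l => ((⟨z l, (hz l).1⟩ : UpperHalfPlane) : ℂ)) (σ i) := by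
      funext i
      rcases σ i with _ | v
      · rw [wp_none, np_none, tpi_eq]
      · rw [wp_some, np_some]
        exact (hjt v.1 v.2).symm
    rw [h3]
    exact h2
  constructor
  · obtain ⟨σ, h1, h2⟩ := hA
    exact ⟨σ, h1, fun P hP h0 => Pool.Agent.Y124.TD.LIb.mv h2 P hP h0⟩
  · obtain ⟨σ, h1, h2⟩ := Pool.Agent.Y124.TM.drop_pi hA
    exact ⟨σ, h1, fun P hP h0 => Pool.Agent.Y124.TD.LIb.mv h2 P hP h0⟩

end Pool.Agent.Results.MP_5e64e7_nt.AllIntegralTuples
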