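import Pool.Agent.Y776.AxJ.Nome
import Pool.Agent.Y776.Cv.GenK

/-!
# The modular Schanuel conjecture with derivatives and nomes: the points of arbitrary analytic curves

Let `τ_1, …, τ_p` be arbitrary analytic functions on a connected open set `U` with values in the upper half-plane, such
that no nontrivial combination of them with integral coefficients is constant and `j(τ_i)` and `j(τ_k)` are algebraically
independent over `ℂ` for `i ≠ k`. For the point `(τ_1(x), …, τ_p(x))` the generalised period conjecture, in the form of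
Bertolin's conjecture, says that (in general) at least `4 p` of the `5 p` numbers `τ_i(x)`, `j(τ_i(x))`, `j'(τ_i(x))`,
`j''(τ_i(x))`, `exp(2 π i τ_i(x))` are algebraically independent; this contains the modular Schanuel conjecture with
derivatives at such a point. We show that `4 p` fixed ones of these functions of `x` do not satisfy any approximate
relation of bounded degree and of height `T^A` for all `x` of height at most `T` in all number fields of degree at most
`m`, with the exception of `C T^ε` points. For `n` different curves the numbers at the points `x_1, …, x_n` have no such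
relation with the exception of `C T^ε N^(n-1)` tuples, where `N` is the number of points. The coefficients of the
relations are combinations of arbitrary complex numbers `ξ_1, …, ξ_g`.
-/

set_option autoImplicit false

open NumberField
open Pool.Agent

namespace Pool.Agent.Results.MP_5e64e7_nt.AnalyticCurvesWithNomes

/-- The lattice `ℤ + ℤ τ`. -/
noncomputable def lattice (τ : ℂ) (h : 0 < τ.im) : PeriodPair where
  ω₁ := 1
  ω₂ := τ
  indep := (Y685.LL ⟨τ, h⟩).indep

/-- The modular invariant `j = 1728 g₂³ / (g₂³ - 27 g₃²)` on the upper half-plane. -/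
noncomputable def j (τ : ℂ) : ℂ :=
  if h : 0 < τ.im then 1728 * (lattice τ h).g₂ ^ 3 / ((lattice τ h).g₂ ^ 3 - 27 * (lattice τ h).g₃ ^ 2) else 0

/-- An analytic curve in `ℍ^p`. -/
structure Curve (U : Set ℂ) {p : ℕ} (τ : Fin p → ℂ → ℂ) : Prop where
  pos : 0 < p
  isOpen : IsOpen U
  isPreconnected : IsPreconnected U
  nonempty : U.Nonempty
  analytic : ∀ i, AnalyticOnNhd ℂ (τ i) U
  im_pos : ∀ i, ∀ z ∈ U, 0 < (τ i z).im
  /-- no nontrivial combination with integral coefficients is constant -/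
  linear : ∀ m : Fin p → ℤ, m ≠ 0 → ∀ c : ℂ, ∃ z ∈ U, ∑ i, (m i : ℂ) * τ i z ≠ c
  /-- two of the functions `j(τ_i)` are algebraically independent over `ℂ` -/
  independent : ∀ i k, i ≠ k → ∀ P : MvPolynomial (Fin 2) ℂ, P ≠ 0 →
    ∃ z ∈ U, MvPolynomial.eval ![j (τ i z), j (τ k z)] P ≠ 0

/-- The names of the functions. -/
inductive Name (p : ℕ) : Type
  | tau : Fin p → Name p
  | j : Fin p → Name p
  | dj : Fin p → Name p
  | ddj : Fin p → Name p
  | nome : Fin p → Name p

/-- The values `τ_i(z)`, `j(τ_i(z))`, `j'(τ_i(z))`, `j''(τ_i(z))` (complex derivatives of `j`) and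
`exp(2 π i τ_i(z))`. -/
noncomputable def value {p : ℕ} (τ : Fin p → ℂ → ℂ) (z : ℂ) : Name p → ℂ
  | Name.tau i => τ i z
  | Name.j i => j (τ i z)
  | Name.dj i => deriv j (τ i z)
  | Name.ddj i => deriv (deriv j) (τ i z)
  | Name.nome i => Complex.exp (2 * (Real.pi : ℂ) * Complex.I * τ i z)

/-- The elements of the number field `F` with image in `K` which are quotients of two integers of `F` all of whose
conjugates have absolute value at most `T`. -/
def Points (F : Type) [Field F] [NumberField F] (ι : F →+* ℂ) (K : Set ℂ) (T : ℝ) : Set F :=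
  {x | ι x ∈ K ∧ ∃ a b : 𝓞 F, b ≠ 0 ∧ (∀ φ : F →+* ℂ, ‖φ a‖ ≤ T ∧ ‖φ b‖ ≤ T) ∧ x = a / b}

/-- The `n`-tuples `x` of points of `F`, the `j`-th one in `K j`, for which there is a polynomial `P` of degree at most
`d` in each variable, with coefficients of the form `∑ ξ_i ι(c_i)`, where the `c_i` are integers of `F` all of whose
conjugates have absolute value at most `T ^ A`, such that the value of `P` at the numbers `v j (ι (x j)) i` is at most
`T ^ (-B)` times the absolute value of some nonzero coefficient of `P`. -/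
def Exceptional (n d : ℕ) {g : ℕ} {J : Fin n → Type} (v : ∀ j, ℂ → J j → ℂ) (F : Type) [Field F] [NumberField F]
    (ι : F →+* ℂ) (ξ : Fin g → ℂ) (K : Fin n → Set ℂ) (A B T : ℝ) : Set (Fin n → F) :=
  {x | (∀ j, x j ∈ Points F ι (K j) T) ∧ ∃ P : MvPolynomial (Σ j, J j) ℂ, (∀ y, P.degreeOf y ≤ d) ∧
    (∀ s, ∃ c : Fin g → 𝓞 F, (∀ i (φ : F →+* ℂ), ‖φ (c i)‖ ≤ T ^ A) ∧ P.coeff s = ∑ i, ξ i * ι (c i)) ∧
    ∃ s₀, P.coeff s₀ ≠ 0 ∧
      ‖MvPolynomial.aeval (fun y : Σ j, J j => v y.1 (ι (x y.1)) y.2) P‖ ≤ T ^ (-B) * ‖P.coeff s₀‖}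

theorem j_eq {τ : ℂ} (h : 0 < τ.im) : j τ = Y776.jf τ := by
  have h1 : Y685.LC τ = lattice τ h := by
    rw [Y685.LC, UpperHalfPlane.ofComplex_apply_of_im_pos h]
    rfl
  rw [j, dif_pos h, Y776.jf, h1]

theorem j_ev {τ : ℂ} (h : 0 < τ.im) : j =ᶠ[nhds τ] Y776.jf := by
  filter_upwards [Y776.AxJ.isOpen_H.mem_nhds h] with σ hσ
  exact j_eq hσ

theorem dj_eq {τ : ℂ} (h : 0 < τ.im) : deriv j τ = deriv Y776.jf τ := (j_ev h).deriv_eq

theorem dj_ev {τ : ℂ} (h : 0 < τ.im) : deriv j =ᶠ[nhds τ] deriv Y776.jf := by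
  filter_upwards [Y776.AxJ.isOpen_H.mem_nhds h] with σ hσ
  exact dj_eq hσ

theorem ddj_eq {τ : ℂ} (h : 0 < τ.im) : deriv (deriv j) τ = deriv (deriv Y776.jf) τ := (dj_ev h).deriv_eq

theorem fmj {U : Set ℂ} {p : ℕ} {τ : Fin p → ℂ → ℂ} (h : Curve U τ) :
    Y776.AxJ.Fmj U τ (fun i z => 2 * Real.pi * Complex.I * τ i z) where
  op := h.isOpen
  conn := h.isPreconnected
  ne := h.nonempty
  ta := h.analytic
  im := h.im_pos
  nc := by
    intro i c
    obtain ⟨z, hz, hne⟩ := h.linear (Pi.single i 1) (by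
      intro h0
      have := congrFun h0 i
      rw [Pi.single_eq_same] at this
      exact one_ne_zero this) c
    refine ⟨z, hz, fun h1 => hne ?_⟩
    rw [← h1, Finset.sum_eq_single i]
    · rw [Pi.single_eq_same, Int.cast_one, one_mul]
    · intro k _ hk
      rw [Pi.single_eq_of_ne hk, Int.cast_zero, zero_mul]
    · intro hcon
      exact absurd (Finset.mem_univ i) hcon
  ji := by
    intro i k hik P hP
    by_contra hne
    obtain ⟨z, hz, hz0⟩ := h.independent i k hik P hne
    apply hz0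
    rw [← hP z hz]
    congr 2
    funext m
    fin_cases m
    · exact j_eq (h.im_pos i z hz)
    · exact j_eq (h.im_pos k z hz)
  wa := fun i z hz => analyticAt_const.mul (h.analytic i z hz)
  wi := by
    intro m c hc
    by_contra hm
    have hpi : (2 * (Real.pi : ℂ) * Complex.I) ≠ 0 := Complex.two_pi_I_ne_zero
    obtain ⟨z, hz, hne⟩ := h.linear m hm (c / (2 * Real.pi * Complex.I))
    apply hne
    rw [eq_div_iff hpi, ← hc z hz, Finset.sum_mul]
    exact Finset.sum_congr rfl fun i _ => by ring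

/-- the name of a function -/
def nm {p : ℕ} : Fin p × Fin 5 → Name p := fun o => match o with
  | (i, 0) => Name.tau i
  | (i, 1) => Name.j i
  | (i, 2) => Name.dj i
  | (i, 3) => Name.ddj i
  | (i, 4) => Name.nome i

/-- the function with a given name -/
def mn {p : ℕ} : Name p → Fin p × Fin 5 := fun o => match o with
  | Name.tau i => (i, 0)
  | Name.j i => (i, 1)
  | Name.dj i => (i, 2)
  | Name.ddj i => (i, 3)
  | Name.nome i => (i, 4)

theorem nm_inj {p : ℕ} : Function.Injective (nm (p := p)) := by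
  have h : Function.LeftInverse (mn (p := p)) nm := by
    rintro ⟨i, m⟩
    fin_cases m <;> rfl
  exact h.injective

theorem value_eq {U : Set ℂ} {p : ℕ} {τ : Fin p → ℂ → ℂ} (h : Curve U τ) {z : ℂ} (hz : z ∈ U)
    (o : Fin p × Fin 5) : value τ z (nm o) = Y776.AxJ.yn τ o z := by
  obtain ⟨i, m⟩ := o
  fin_cases m
  · rfl
  · exact j_eq (h.im_pos i z hz)
  · exact dj_eq (h.im_pos i z hz)
  · exact ddj_eq (h.im_pos i z hz)
  · rfl

/-- For `n` curves (equal or different) one can choose, for each `j`, `4 p_j` of the `5 p_j` functions, such that for all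
compact sets `K_j` in `U_j` and all `m`, `g`, `d`, `A` and `ε > 0` there are `B`, `C`, `T₀` such that for every number
field `F` of degree at most `m`, every embedding of `F` in `ℂ`, all complex numbers `ξ_1, …, ξ_g` and all `T ≥ T₀` the
number of `n`-tuples which are exceptional for the chosen functions is at most `C T^ε N^(n - 1)`, where `N` is the
number of points in the union of the `K_j`. -/
theorem result {n : ℕ} {p : Fin n → ℕ} (U : Fin n → Set ℂ) (τ : ∀ j, Fin (p j) → ℂ → ℂ)
    (hU : ∀ j, Curve (U j) (τ j)) :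
    ∃ e : ∀ j, Fin (4 * p j) → Name (p j), (∀ j, Function.Injective (e j)) ∧
      ∀ K : Fin n → Set ℂ, (∀ j, IsCompact (K j)) → (∀ j, K j ⊆ U j) → ∀ (m g d : ℕ) (A ε : ℝ), 0 < ε →
        ∃ B C T₀ : ℝ, ∀ (F : Type) [Field F] [NumberField F], Module.finrank ℚ F ≤ m → ∀ (ι : F →+* ℂ)
          (ξ : Fin g → ℂ) (T : ℝ), T₀ ≤ T →
          (Exceptional n d (fun j z k => value (τ j) z (e j k)) F ι ξ K A B T).Finite ∧
            ((Exceptional n d (fun j z k => value (τ j) z (e j k)) F ι ξ K A B T).ncard : ℝ) ≤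
              C * T ^ ε * ((Points F ι (⋃ j, K j) T).ncard : ℝ) ^ (n - 1) := by
  classical
  choose e he hL using fun j => Y776.AxJ.exists_loc_nome (fmj (hU j)) (hU j).pos
  refine ⟨fun j k => nm (e j k), fun j => nm_inj.comp (he j), ?_⟩
  intro K hK hKU m g d A ε hε
  obtain ⟨B, C, T₀, hC, hT₀, H⟩ := Y776.Cv.nf_genSK (η := Fin g) m n d
    (fun j => (hU j).isOpen) (fun j => (hU j).isPreconnected)
    (y := fun j k => Y776.AxJ.yn (τ j) (e j k))
    (fun j k => Y776.AxJ.yn_an (fmj (hU j)) (e j k)) (fun j => hL j) hK hKU (S := ⋃ j, K j)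
    (fun j => Set.subset_iUnion K j) A ε hε
  refine ⟨B, C, T₀, fun F _ _ hm ι ξ T hT => ?_⟩
  have hT0 : 0 ≤ T := by linarith
  have hP : ∀ L : Set ℂ, Points F ι L T = {x : F | Y120.HtLe F T x ∧ ι x ∈ L} := by
    intro L
    ext x
    constructor
    · rintro ⟨h1, a, b, hb, hab, hx⟩
      exact ⟨⟨a, b, hb, Y120.house_le F hT0 fun φ => (hab φ).1, Y120.house_le F hT0 fun φ => (hab φ).2, hx⟩, h1⟩
    · rintro ⟨⟨a, b, hb, ha, hb', hx⟩, h1⟩
      exact ⟨h1, a, b, hb, fun φ => ⟨(Y120.house_ge F _ φ).trans ha, (Y120.house_ge F _ φ).trans hb'⟩, hx⟩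
  have key := H F hm ι ξ T hT
    (Exceptional n d (fun j z k => value (τ j) z (nm (e j k))) F ι ξ K A B T) (by
    rintro x ⟨hx, P, hPd, hPc, s₀, hs₀, hs⟩
    have hx' : ∀ j, Y120.HtLe F T (x j) ∧ ι (x j) ∈ K j := fun j => by
      have h1 := hx j
      rw [hP] at h1
      exact h1
    refine ⟨hx', P, hPd, hPc, s₀, hs₀, ?_⟩
    have hv : (fun y : Σ j, Fin (4 * p j) => value (τ y.1) (ι (x y.1)) (nm (e y.1 y.2))) =
        fun y : Σ j, Fin (4 * p j) => Y776.AxJ.yn (τ y.1) (e y.1 y.2) (ι (x y.1)) := by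
      funext y
      exact value_eq (hU y.1) (hKU y.1 (hx' y.1).2) _
    have hs' : ‖MvPolynomial.aeval (fun y : Σ j, Fin (4 * p j) => value (τ y.1) (ι (x y.1)) (nm (e y.1 y.2))) P‖ ≤
      T ^ (-B) * ‖P.coeff s₀‖ := hs
    rw [hv] at hs'
    exact hs')
  rw [hP]
  exact key

end Pool.Agent.Results.MP_5e64e7_nt.AnalyticCurvesWithNomes
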