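import Pool.Agent.Y124.App

/-!
# Grothendieck's period conjecture for products of `n` Legendre elliptic curves over `ℚ`: up to any given degree and
# height the exceptional `n`-tuples of height at most `T` lie on `O(T^ε)` hypersurfaces of bounded degree

For `t ∈ ℚ`, `0 < t < 1`, the field of periods of the elliptic curve `E_t : y² = x(x-1)(x-t)` is generated, up to
algebraic numbers, by `K(t)`, `E(t)`, `K(1-t)` and `π` (Legendre's relation). For `t = (t_1, …, t_n)` the abelian variety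
`E_{t_1} × ⋯ × E_{t_n}` has periods generated by the `3n + 1` numbers `π`, `K(t_j)`, `E(t_j)`, `K(1-t_j)`, and for
general `t` its Mumford–Tate group has dimension `3n + 1`. The tuples with `t_1 = t_2` are exceptional, and there are
about `T^(2(n - 1))` of them.
-/

set_option autoImplicit false

namespace Pool.Agent.Results.MP_5e64e7_nt.LegendreTuplesSubpolynomial

/-- Complete elliptic integral of the first kind, `K(t) = ∫_0^{π/2} dθ / √(1 - t sin² θ)`. -/
noncomputable def K (t : ℝ) : ℝ := ∫ θ in (0 : ℝ)..(Real.pi / 2), 1 / √(1 - t * Real.sin θ ^ 2)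

/-- Complete elliptic integral of the second kind, `E(t) = ∫_0^{π/2} √(1 - t sin² θ) dθ`. -/
noncomputable def E (t : ℝ) : ℝ := ∫ θ in (0 : ℝ)..(Real.pi / 2), √(1 - t * Real.sin θ ^ 2)

/-- The `3n + 1` numbers `π`, `K(t_j)`, `E(t_j)`, `K(1 - t_j)`. -/
noncomputable def periods {n : ℕ} (t : Fin n → ℚ) (x : Option (Fin n × Fin 3)) : ℝ :=
  match x with
  | none => Real.pi
  | some (j, i) => ![K (t j), E (t j), K (1 - t j)] i

/-- The `n`-tuples `t` of rational numbers in `[a, b]` with denominators at most `T` for which some nonzero polynomial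
in `3n + 1` variables with integer coefficients of absolute value at most `T ^ A`, of degree at most `d` in each variable,
takes at the periods a value of absolute value at most `T ^ (-B)`. -/
def Exceptional (n d : ℕ) (a b A B T : ℝ) : Set (Fin n → ℚ) :=
  {t | (∀ j, a ≤ t j ∧ t j ≤ b ∧ ((t j).den : ℝ) ≤ T) ∧
    ∃ P : MvPolynomial (Option (Fin n × Fin 3)) ℤ, P ≠ 0 ∧ (∀ x, P.degreeOf x ≤ d) ∧
      (∀ s, |((P.coeff s : ℤ) : ℝ)| ≤ T ^ A) ∧ |MvPolynomial.aeval (periods t) P| ≤ T ^ (-B)}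

/-- Let `[a, b] ⊂ (0, 1)`, `n ≥ 1`, `d`, `A` and `ε > 0` be given. There are `D`, `B` and `C` such that for all `T ≥ 1`
the exceptional `n`-tuples are zeros of at most `C T^ε` nonzero polynomials of degree at most `D`, and their number is at
most `C T^(2(n - 1) + ε)`; for `n = 1` it is at most `C T^ε`. -/
theorem result (n d : ℕ) (hn : 1 ≤ n) (a b : ℝ) (ha : 0 < a) (hab : a < b) (hb : b < 1) (A ε : ℝ) (hε : 0 < ε) :
    ∃ (D : ℕ) (B C : ℝ), ∀ T : ℝ, 1 ≤ T →
      (∃ Φ : Finset (MvPolynomial (Fin n) ℚ), (Φ.card : ℝ) ≤ C * T ^ ε ∧ (∀ Q ∈ Φ, Q ≠ 0 ∧ Q.totalDegree ≤ D) ∧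
        ∀ t ∈ Exceptional n d a b A B T, ∃ Q ∈ Φ, MvPolynomial.eval t Q = 0) ∧
      (Exceptional n d a b A B T).Finite ∧
      ((Exceptional n d a b A B T).ncard : ℝ) ≤ C * T ^ (2 * ((n : ℝ) - 1) + ε) := by
  classical
  have hnn : Nonempty (Fin n) := ⟨⟨0, hn⟩⟩
  obtain ⟨D, B, C, hC, h⟩ := Y124.std (fun (_ : Fin n) (y : Fin 3) => TH818.AP.KC 0 1 y) (fun _ : Unit => Real.pi)
    (fun _ => a) (fun _ => b) (fun _ y t ht => TH818.AP.kc_an 0 1 one_pos y t (ha.trans_le ht.1) (ht.2.trans_lt hb))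
    (fun _ => Y124.aindep_leg a b ha hab hb) Y124.goodXi_pi d A ε hε
  have hsub : ∀ T, Exceptional n d a b A B T ⊆ Y124.ExcS (fun (_ : Fin n) (y : Fin 3) => TH818.AP.KC 0 1 y)
      (fun _ : Unit => Real.pi) (fun _ => a) (fun _ => b) d A B T := by
    rintro T t ⟨ht, P, hP0, hPd, hPc, hPs⟩
    refine Y124.ExcS_of_rename (Equiv.optionEquivSumPUnit (Fin n × Fin 3)) _ _ _ _ d A B T t
      (fun x => ⟨⟨(ht x).1, (ht x).2.1⟩, (ht x).2.2⟩) (periods t) ?_ P hP0 hPd hPc hPs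
    intro w
    cases w with
    | none => simp [periods]
    | some w =>
      obtain ⟨j, i⟩ := w
      fin_cases i
      · simp [TH818.AP.KC, periods, K, TH818.AR.KK]
      · simp [TH818.AP.KC, periods, E, TH818.AR.EE]
      · simp [TH818.AP.KC, periods, K, TH818.AR.KK]
  refine ⟨D, B, C * (D * 4 ^ (n - 1)) + C, fun T hT => ?_⟩
  have hTp : 0 < T := by linarith
  have hcov := h T hT
  have hTε : 0 < T ^ ε := by positivity
  refine ⟨?_, ?_⟩
  · obtain ⟨Φ, h1, h2, h3⟩ := hcov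
    refine ⟨Φ, ?_, h2, fun t ht => h3 t (hsub T ht)⟩
    have h4 : (Φ.card : ℝ) ≤ C * T ^ ε := by
      have h5 : (Φ.card : ℝ) ≤ (⌊C * T ^ ε⌋₊ : ℝ) := by exact_mod_cast h1
      exact h5.trans (Nat.floor_le (by positivity))
    refine h4.trans ?_
    have : 0 ≤ C * (D * 4 ^ (n - 1)) := by positivity
    nlinarith
  · obtain ⟨h1, h2⟩ := Y124.count_cov hn (TH818.AP.RT a b T) D _ (Exceptional n d a b A B T)
      (fun t ht j => TH818.AP.mem_RT.2 ⟨⟨(ht.1 j).1, (ht.1 j).2.1⟩, (ht.1 j).2.2⟩) (hcov.mono le_rfl le_rfl (hsub T))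
    refine ⟨h1, ?_⟩
    have h3 := TH818.AP.card_RT ha hb hT
    have h4 : ((Exceptional n d a b A B T).ncard : ℝ) ≤
        (⌊C * T ^ ε⌋₊ : ℝ) * (D * ((TH818.AP.RT a b T).card : ℝ) ^ (n - 1)) := by exact_mod_cast h2
    refine h4.trans ?_
    have h5 : T ^ (2 * ((n : ℝ) - 1) + ε) = T ^ ε * (T ^ (2 : ℝ)) ^ (n - 1) := by
      rw [← Real.rpow_natCast (T ^ (2 : ℝ)), ← Real.rpow_mul hTp.le, ← Real.rpow_add hTp]
      congr 1
      push_cast [hn]
      ring
    rw [h5]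
    calc (⌊C * T ^ ε⌋₊ : ℝ) * (D * ((TH818.AP.RT a b T).card : ℝ) ^ (n - 1))
        ≤ (C * T ^ ε) * (D * (4 * T ^ (2 : ℝ)) ^ (n - 1)) := by
          have h6 := Nat.floor_le (by positivity : 0 ≤ C * T ^ ε)
          gcongr
      _ = C * (D * 4 ^ (n - 1)) * (T ^ ε * (T ^ (2 : ℝ)) ^ (n - 1)) := by rw [mul_pow]; ring
      _ ≤ (C * (D * 4 ^ (n - 1)) + C) * (T ^ ε * (T ^ (2 : ℝ)) ^ (n - 1)) := by
          gcongr
          linarith

end Pool.Agent.Results.MP_5e64e7_nt.LegendreTuplesSubpolynomial
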