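import Pool.Agent.Y771.KF.MSN

/-!
# Values of `j`, `j'`, `j''` at points `z = log x / (2πi)` whose nome `x` lies in a number field

For points `z_l = log x_l / (2πi)` with algebraic nomes `x_l = exp (2πi z_l)`, `0 < |x_l| < 1`, one expects that `π`, `log x_l`,
`j (z_l)`, `D j (z_l)`, `D² j (z_l)` (`D = (1/2πi) d/dz`) are algebraically independent if the `x_l` are multiplicatively
independent; this contains the modular Schanuel conjecture with derivatives for these points. For `n = 1` the last three
numbers are algebraically independent by Nesterenko's theorem.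

Let `k` be a number field with an embedding `σ : k → ℂ` and `K` a compact subset of the open unit disc slit along the
real half-line `(-∞, 0]`. We prove that the `n`-tuples of elements of `k` of height at most `T`, with `σ x_l ∈ K`, for which
these `4 n + 1` numbers satisfy a relation (even an approximate one) of degree at most `d` with coefficients in `k` of height
at most `T ^ A` lie on at most `C T ^ ε` hypersurfaces of degree at most `D`. The tuples with `x_1 = x_2`, or
`x_1 = x_2 ^ 2`, are exceptional. For rational numbers, and with the exponent `2 (n - 1) + 2 - 2 / ((d + 1)^(4 n + 1) + 1)` in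
the counting of the tuples (`2 (n - 1) + ε` here), an earlier result of this pool (`AlmostAllRationalNomes`) had such a
statement.

Proof: the general theorem of helper124 (`Pool.Agent.Y124.core`), used here over number fields and for functions of a
complex variable (`Pool.Agent.Y771.KF.stdK`), and the algebraic independence of `x`, `log x`, `J (x)`, `D J (x)`,
`D² J (x)` (`Pool.Agent.TH21.MS.Mahler`).
-/

set_option autoImplicit false

namespace Pool.Agent.Results.MP_5e64e7_nt.NumberFieldNomes

/-- the normalised Eisenstein series of weight `4` -/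
noncomputable def E4 (τ : ℂ) : ℂ :=
  1 + 240 * ∑' m : ℕ, ((ArithmeticFunction.sigma 3 (m + 1) : ℕ) : ℂ) *
    Complex.exp (2 * (Real.pi : ℂ) * Complex.I * τ) ^ (m + 1)

/-- the normalised Eisenstein series of weight `6` -/
noncomputable def E6 (τ : ℂ) : ℂ :=
  1 - 504 * ∑' m : ℕ, ((ArithmeticFunction.sigma 5 (m + 1) : ℕ) : ℂ) *
    Complex.exp (2 * (Real.pi : ℂ) * Complex.I * τ) ^ (m + 1)

/-- the modular invariant `j = q⁻¹ + 744 + 196884 q + ⋯` -/
noncomputable def j (τ : ℂ) : ℂ := 1728 * E4 τ ^ 3 / (E4 τ ^ 3 - E6 τ ^ 2)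

/-- the point `z = log x / (2πi)`, `exp (2πi z) = x`, of the upper half-plane, for `0 < |x| < 1` -/
noncomputable def z (x : ℂ) : ℂ := Complex.log x / (2 * (Real.pi : ℂ) * Complex.I)

/-- `log x`, `j (z)`, `D j (z)`, `D² j (z)`, where `D = (1/2πi) d/dz` -/
noncomputable def four (x : ℂ) : Fin 4 → ℂ :=
  ![Complex.log x, j (z x), deriv j (z x) / (2 * (Real.pi : ℂ) * Complex.I),
    deriv (deriv j) (z x) / (2 * (Real.pi : ℂ) * Complex.I) ^ 2]

/-- the `4 n + 1` numbers `π` and `log x_l`, `j (z_l)`, `D j (z_l)`, `D² j (z_l)` -/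
noncomputable def numbers {k : Type} [Field k] (σ : k →+* ℂ) {n : ℕ} (x : Fin n → k) (i : Option (Fin n × Fin 4)) : ℂ :=
  i.elim (Real.pi : ℂ) fun q => four (σ (x q.1)) q.2

/-- The `n`-tuples `x` of elements of `k`, of height at most `T` and with `σ x_l ∈ K`, for which some nonzero polynomial
in `4 n + 1` variables with coefficients in `k` of height at most `T ^ A`, of degree at most `d` in each variable, takes at
the `4 n + 1` numbers a value of absolute value at most `T ^ (-B)`. -/
def Exceptional {k : Type} [Field k] [NumberField k] (σ : k →+* ℂ) (n d : ℕ) (K : Set ℂ) (A B T : ℝ) :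
    Set (Fin n → k) :=
  {x | (∀ l, σ (x l) ∈ K ∧ Height.mulHeight₁ (x l) ≤ T) ∧
    ∃ P : MvPolynomial (Option (Fin n × Fin 4)) k, P ≠ 0 ∧ (∀ i, P.degreeOf i ≤ d) ∧
      (∀ e, Height.mulHeight₁ (P.coeff e) ≤ T ^ A) ∧ ‖MvPolynomial.eval₂ σ (numbers σ x) P‖ ≤ T ^ (-B)}

/-- For every `ε > 0` there are `D`, `B` and `C` such that for all `T ≥ 1` the exceptional `n`-tuples are zeros of at most
`C T ^ ε` nonzero polynomials of degree at most `D`, and their number is at most `C T ^ ε N (T) ^ (n - 1)`, where `N (T)`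
is the number of elements of `k` of height at most `T`. -/
theorem result (k : Type) [Field k] [NumberField k] (σ : k →+* ℂ) (n d : ℕ) (hn : 1 ≤ n) (K : Set ℂ) (hK : IsCompact K)
    (hKS : ∀ x ∈ K, x ∈ Complex.slitPlane ∧ ‖x‖ < 1) (A ε : ℝ) (hε : 0 < ε) :
    ∃ (D : ℕ) (B C : ℝ), ∀ T : ℝ, 1 ≤ T →
      (∃ Φ : Finset (MvPolynomial (Fin n) k), (Φ.card : ℝ) ≤ C * T ^ ε ∧ (∀ Q ∈ Φ, Q ≠ 0 ∧ Q.totalDegree ≤ D) ∧
        ∀ x ∈ Exceptional σ n d K A B T, ∃ Q ∈ Φ, MvPolynomial.eval x Q = 0) ∧
      (Exceptional σ n d K A B T).Finite ∧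
      ((Exceptional σ n d K A B T).ncard : ℝ) ≤
        C * T ^ ε * ({x : k | Height.mulHeight₁ x ≤ T}.ncard : ℝ) ^ (n - 1) :=
  Pool.Agent.Y771.KF.nomemainK σ n d hn K hK hKS A ε hε

end Pool.Agent.Results.MP_5e64e7_nt.NumberFieldNomes
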